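import Pool.Agent.GEN.StmtsU

/-!
# Squad GEN, row SYL: from symbols to lists
-/

set_option autoImplicit false

namespace Pool.Agent.GEN.H62

open MvPolynomial Finset Pool.Agent.GEN

theorem syl : SylStmt := by
  intro σ A _ p
  refine ⟨p.support.toList.map (fun m => (Polynomial.monomial (m none)
    (monomial (xp m) (coeff m p)), (Finsupp.toMultiset (dp m)).toList)), ?_⟩
  intro n w
  unfold opR
  rw [List.map_map, Finset.sum_map_toList]
  conv_lhs => rw [MvPolynomial.as_sum p]
  rw [map_sum]
  apply Finset.sum_congr rfl
  intro m _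
  rw [act_monomial]
  show C (coeff m p) * (C ((n : A) ^ m none) * monomial (xp m) (1 : A) * dE (dp m) w) =
    (Polynomial.monomial (m none) (monomial (xp m) (coeff m p))).eval (n : MvPolynomial σ A) *
      dWordR (Finsupp.toMultiset (dp m)).toList w
  rw [Polynomial.eval_monomial]
  unfold dE
  have h1 : (monomial (xp m) (coeff m p) : MvPolynomial σ A) =
      C (coeff m p) * monomial (xp m) (1 : A) := by
    rw [C_mul_monomial, mul_one]
  have h2 : (C ((n : A) ^ m none) : MvPolynomial σ A) = (n : MvPolynomial σ A) ^ m none := by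
    rw [map_pow, map_natCast]
  rw [h1, h2]
  ring

end Pool.Agent.GEN.H62
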